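import Mathlib

open Set MeasureTheory Filter Topology

namespace Pool.Agent.Results.MP_d56d33_an.ExpNotL2

/-- Companion matrix of `s^n + p_{n-1} s^{n-1} + ... + p_0`. -/
def companion {n : ℕ} (p : Fin n → ℝ) : Fin n → Fin n → ℝ :=
  fun i j => if i.val + 1 = n then -(p j) else if j.val = i.val + 1 then 1 else 0

/-- `b = (0,...,0,1)`. -/
def bvec (n : ℕ) : Fin n → ℝ := fun i => if i.val + 1 = n then 1 else 0

/-- `c = (q_0,...,q_m,0,...,0)`. -/
def cvec (n : ℕ) {m : ℕ} (q : Fin (m + 1) → ℝ) : Fin n → ℝ :=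
  fun i => if h : i.val ≤ m then q ⟨i.val, Nat.lt_succ_of_le h⟩ else 0

/-- The output `σ = cᵀ x`. -/
noncomputable def output {n m : ℕ} (q : Fin (m + 1) → ℝ) (x : EuclideanSpace ℝ (Fin n)) : ℝ :=
  ∑ j, cvec n q j * x j

/-- `x` solves `x' = A_o x - k(t) b φ(cᵀ x) + f(t) b` on `[t0, T)`: locally absolutely continuous,
`t ↦ φ(cᵀ x(t))` locally integrable, the equation holding almost everywhere. -/
structure IsSolution {n m : ℕ} (p : Fin n → ℝ) (q : Fin (m + 1) → ℝ) (k φ f : ℝ → ℝ)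
    (t0 : ℝ) (T : EReal) (x : ℝ → EuclideanSpace ℝ (Fin n)) : Prop where
  lt : (t0 : EReal) < T
  ac : ∀ t : ℝ, t0 ≤ t → (t : EReal) < T →
    ∀ i, AbsolutelyContinuousOnInterval (fun s => x s i) t0 t
  integrable : ∀ t : ℝ, t0 ≤ t → (t : EReal) < T →
    IntervalIntegrable (fun s => φ (output q (x s))) volume t0 t
  eqn : ∀ᵐ s : ℝ, t0 ≤ s → (s : EReal) < T → ∀ i,
    HasDerivAt (fun s => x s i)
      ((∑ j, companion p i j * x s j) - k s * bvec n i * φ (output q (x s)) + f s * bvec n i) s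

/-- Admissible `k`: bounded below by a positive constant and absolutely continuous on `[0,∞)`
(the integral of an integrable function). -/
def AdmissibleK (k : ℝ → ℝ) : Prop :=
  (∃ ε > 0, ∀ t, 0 ≤ t → ε ≤ k t) ∧
  ∃ k' : ℝ → ℝ, IntegrableOn k' (Ici 0) ∧ ∀ t, 0 ≤ t → k t = k 0 + ∫ s in (0 : ℝ)..t, k' s

/-- Admissible `φ`: `φ 0 = 0` and the sector condition. -/
def AdmissiblePhi (φ : ℝ → ℝ) : Prop :=
  φ 0 = 0 ∧ ∃ η₁ η₂ : ℝ, 0 < η₁ ∧ η₁ < η₂ ∧
    ∀ σ, σ ≠ 0 → η₁ * σ ^ 2 ≤ σ * φ σ ∧ σ * φ σ ≤ η₂ * σ ^ 2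

/-- Exponential stability of the null solution of (1). -/
def ExpStable {n m : ℕ} (p : Fin n → ℝ) (q : Fin (m + 1) → ℝ) (k φ : ℝ → ℝ) : Prop :=
  ∃ ε₁ ε₂ : ℝ, 0 < ε₁ ∧ 0 < ε₂ ∧ ∀ (t0 : ℝ) (T : EReal) (x : ℝ → EuclideanSpace ℝ (Fin n)),
    0 ≤ t0 → IsSolution p q k φ (fun _ => 0) t0 T x →
    ∀ t : ℝ, t0 ≤ t → (t : EReal) < T → ‖x t‖ ≤ ε₂ * ‖x t0‖ * Real.exp (-ε₁ * (t - t0))

/-- `L₂`-stability of (2). -/
def L2Stable {n m : ℕ} (p : Fin n → ℝ) (q : Fin (m + 1) → ℝ) (k φ : ℝ → ℝ) : Prop :=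
  ∀ η₁ η₂ : ℝ, 0 ≤ η₁ → 0 ≤ η₂ → ∃ η₃ : ℝ, ∀ (t0 : ℝ) (T : EReal)
    (x : ℝ → EuclideanSpace ℝ (Fin n)) (f : ℝ → ℝ), 0 ≤ t0 → Measurable f →
    IsSolution p q k φ f t0 T x → ‖x t0‖ < η₁ →
    (∫⁻ t in Ici (0 : ℝ), ENNReal.ofReal (f t ^ 2)) < ENNReal.ofReal η₂ →
    (∫⁻ t in {t : ℝ | t0 ≤ t ∧ (t : EReal) < T}, ENNReal.ofReal (‖x t‖ ^ 2)) ≤ ENNReal.ofReal η₃

/-! ### The example -/

/-- `ρ(σ) = min(1, sqrt |log |σ||)` (recall `Real.log σ = log |σ|` and `Real.log 0 = 0`). -/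
noncomputable def rho (v : ℝ) : ℝ := min 1 (Real.sqrt |v|)

/-- The nonlinearity `φ(σ) = σ (1 + min(1, sqrt |log |σ||))`. -/
noncomputable def phi (σ : ℝ) : ℝ := σ * (1 + rho (Real.log σ))

/-- The gain `k(t) = 1 + 1/(1+t)`. -/
noncomputable def gain (t : ℝ) : ℝ := 1 + 1 / (1 + t)

lemma rho_nonneg (v : ℝ) : 0 ≤ rho v := le_min zero_le_one (Real.sqrt_nonneg _)
lemma rho_le (v : ℝ) : rho v ≤ 1 := min_le_left _ _

lemma cont_rho : Continuous rho := by unfold rho; fun_prop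

lemma cont_phi : Continuous phi := by
  rw [continuous_iff_continuousAt]
  intro s
  by_cases hs : s = 0
  · subst hs
    -- squeeze
    have h0 : phi 0 = 0 := by simp [phi]
    unfold ContinuousAt
    rw [h0]
    apply squeeze_zero_norm (a := fun s => 2 * |s|)
    · intro t
      unfold phi
      rw [norm_mul, Real.norm_eq_abs, Real.norm_eq_abs,
        abs_of_nonneg (a := 1 + rho (Real.log t)) (by linarith [rho_nonneg (Real.log t)])]
      have := rho_le (Real.log t)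
      nlinarith [abs_nonneg t]
    · have : Continuous fun s : ℝ => 2 * |s| := by fun_prop
      simpa using this.tendsto 0
  · have h1 : ContinuousAt (fun s => rho (Real.log s)) s :=
      cont_rho.continuousAt.comp (Real.continuousAt_log hs)
    exact continuousAt_id.mul (continuousAt_const.add h1)

lemma admissible_phi : AdmissiblePhi phi := by
  refine ⟨by simp [phi], 1, 2, one_pos, by norm_num, fun s _ => ?_⟩
  have h1 := rho_nonneg (Real.log s)
  have h2 := rho_le (Real.log s)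
  have h3 : s * phi s = s ^ 2 * (1 + rho (Real.log s)) := by unfold phi; ring
  rw [h3]
  constructor <;> nlinarith [sq_nonneg s]

/-- `q = (v² + κ⁴)^{1/4}`. -/
noncomputable def qf (κ v : ℝ) : ℝ := Real.sqrt (Real.sqrt (v ^ 2 + κ ^ 4))

lemma qf_pos {κ : ℝ} (hκ : 0 < κ) (v : ℝ) : 0 < qf κ v := by unfold qf; positivity

lemma qf_pow {κ : ℝ} (v : ℝ) : qf κ v ^ 4 = v ^ 2 + κ ^ 4 := by
  unfold qf
  have h0 : 0 ≤ v ^ 2 + κ ^ 4 := by positivity
  rw [show (4 : ℕ) = 2 * 2 by norm_num, pow_mul, Real.sq_sqrt (Real.sqrt_nonneg _)]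
  rw [show (2 * 2 : ℕ) = 4 by norm_num]
  exact Real.sq_sqrt h0

lemma qf_sq_ge {κ : ℝ} (v : ℝ) : |v| ≤ qf κ v ^ 2 := by
  unfold qf
  rw [Real.sq_sqrt (Real.sqrt_nonneg _)]
  apply Real.abs_le_sqrt
  nlinarith [show 0 ≤ κ ^ 4 by positivity]

lemma hasDerivAt_Y {κ : ℝ} (hκ : 0 < κ) (v : ℝ) :
    HasDerivAt (fun v => v / qf κ v) ((v ^ 2 / 2 + κ ^ 4) / qf κ v ^ 5) v := by
  have hq := qf_pos hκ v
  have hq4 := qf_pow (κ := κ) v
  have hpos : 0 < v ^ 2 + κ ^ 4 := by positivity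
  have h1 : HasDerivAt (fun v : ℝ => v ^ 2 + κ ^ 4) (2 * v) v := by
    simpa using (hasDerivAt_pow 2 v).add_const (κ ^ 4)
  have h2 : HasDerivAt (fun v : ℝ => Real.sqrt (v ^ 2 + κ ^ 4))
      (2 * v / (2 * Real.sqrt (v ^ 2 + κ ^ 4))) v := h1.sqrt hpos.ne'
  have h3 : HasDerivAt (fun v : ℝ => qf κ v)
      (2 * v / (2 * Real.sqrt (v ^ 2 + κ ^ 4)) / (2 * qf κ v)) v := by
    exact h2.sqrt (Real.sqrt_pos.2 hpos).ne'
  have h5 : Real.sqrt (v ^ 2 + κ ^ 4) = qf κ v ^ 2 := by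
    unfold qf; rw [Real.sq_sqrt (Real.sqrt_nonneg _)]
  rw [h5] at h3
  have h4 : HasDerivAt (fun v => v / qf κ v)
      ((1 * qf κ v - v * (2 * v / (2 * qf κ v ^ 2) / (2 * qf κ v))) / qf κ v ^ 2) v :=
    (hasDerivAt_id v).div h3 hq.ne'
  have h7 : (v ^ 2 / 2 + κ ^ 4) / qf κ v ^ 5 =
      (1 * qf κ v - v * (2 * v / (2 * qf κ v ^ 2) / (2 * qf κ v))) / qf κ v ^ 2 := by
    have h6 : κ ^ 4 = qf κ v ^ 4 - v ^ 2 := by linarith
    rw [h6]
    field_simp
    ring
  rw [h7]
  exact h4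

lemma rate {κ δ : ℝ} (hκ : 0 < κ) (hδ : κ ≤ δ) (v : ℝ) :
    1 ≤ (δ + (1 + δ) * rho v) *
      (1 + 4 * (1 / (1 + (v / qf κ v) ^ 2) * ((v ^ 2 / 2 + κ ^ 4) / qf κ v ^ 5))) := by
  have hq := qf_pos hκ v
  have hq4 := qf_pow (κ := κ) v
  have hρ := rho_nonneg v
  have hY : 0 ≤ 1 / (1 + (v / qf κ v) ^ 2) * ((v ^ 2 / 2 + κ ^ 4) / qf κ v ^ 5) := by positivity
  have h1 : κ + rho v ≤ δ + (1 + δ) * rho v := by nlinarith
  have hκρ : 0 < κ + rho v := by linarith
  refine le_trans ?_ (mul_le_mul_of_nonneg_right h1 (by positivity))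
  rcases le_total 1 |v| with hv | hv
  · have : rho v = 1 := by
      unfold rho
      rw [min_eq_left]
      rw [show (1 : ℝ) = Real.sqrt 1 by simp]
      exact Real.sqrt_le_sqrt hv
    rw [this]
    nlinarith
  · have hr : rho v = Real.sqrt |v| := by
      unfold rho
      rw [min_eq_right]
      rw [show (1 : ℝ) = Real.sqrt 1 by simp]
      exact Real.sqrt_le_sqrt hv
    -- `q ≤ κ + ρ`
    have hq1 : qf κ v ≤ κ + rho v := by
      rw [hr]
      set r := Real.sqrt |v|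
      have hr0 : 0 ≤ r := Real.sqrt_nonneg _
      have hr2 : r ^ 2 = |v| := Real.sq_sqrt (abs_nonneg v)
      have hr4 : r ^ 4 = v ^ 2 := by
        rw [show (4 : ℕ) = 2 * 2 by norm_num, pow_mul, hr2, sq_abs]
      have : qf κ v ^ 4 ≤ (κ + r) ^ 4 := by
        rw [hq4, ← hr4]
        have e1 : (κ + r) ^ 4 = κ ^ 4 + r ^ 4 + (4 * κ ^ 3 * r + 6 * κ ^ 2 * r ^ 2 +
          4 * κ * r ^ 3) := by ring
        have e2 : 0 ≤ 4 * κ ^ 3 * r + 6 * κ ^ 2 * r ^ 2 + 4 * κ * r ^ 3 := by positivity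
        linarith
      exact le_of_pow_le_pow_left₀ (by norm_num) (by positivity) this
    -- `Y² ≤ 1`
    have hY2 : (v / qf κ v) ^ 2 ≤ 1 := by
      rw [div_pow, div_le_one (by positivity)]
      have := qf_sq_ge (κ := κ) v
      nlinarith [abs_nonneg v, sq_abs v]
    have h2 : 1 / 2 ≤ 1 / (1 + (v / qf κ v) ^ 2) := by
      apply one_div_le_one_div_of_le <;> nlinarith [sq_nonneg (v / qf κ v)]
    have h3 : 1 / (2 * qf κ v) ≤ (v ^ 2 / 2 + κ ^ 4) / qf κ v ^ 5 := by
      rw [div_le_div_iff₀ (by positivity) (by positivity)]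
      have : κ ^ 4 = qf κ v ^ 4 - v ^ 2 := by linarith
      have e1 : (v ^ 2 / 2 + κ ^ 4) * (2 * qf κ v) = (v ^ 2 + 2 * κ ^ 4) * qf κ v := by ring
      rw [e1, show 1 * qf κ v ^ 5 = qf κ v ^ 4 * qf κ v by ring, hq4]
      have : 0 ≤ κ ^ 4 := by positivity
      nlinarith
    have h4 : 1 / 2 * (1 / (2 * qf κ v)) ≤
        1 / (1 + (v / qf κ v) ^ 2) * ((v ^ 2 / 2 + κ ^ 4) / qf κ v ^ 5) :=
      mul_le_mul h2 h3 (by positivity) (by positivity)
    have h5 : 1 / qf κ v ≤ 1 + 4 * (1 / (1 + (v / qf κ v) ^ 2) *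
        ((v ^ 2 / 2 + κ ^ 4) / qf κ v ^ 5)) := by
      have : 1 / qf κ v = 4 * (1 / 2 * (1 / (2 * qf κ v))) := by field_simp; norm_num
      linarith
    calc (1 : ℝ) = qf κ v * (1 / qf κ v) := by field_simp
      _ ≤ (κ + rho v) * (1 + 4 * (1 / (1 + (v / qf κ v) ^ 2) *
        ((v ^ 2 / 2 + κ ^ 4) / qf κ v ^ 5))) := by gcongr

/-- The coefficient `δ + (1+δ) ρ` at time `s`. -/
noncomputable def coef (s w : ℝ) : ℝ := 1 / (1 + s) + (1 + 1 / (1 + s)) * rho (Real.log w)

lemma coef_nonneg {s : ℝ} (hs : 0 ≤ s) (w : ℝ) : 0 ≤ coef s w := by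
  unfold coef
  have := rho_nonneg (Real.log w)
  positivity

lemma coef_le {s : ℝ} (hs : 0 ≤ s) (w : ℝ) : coef s w ≤ 3 := by
  unfold coef
  have h1 := rho_nonneg (Real.log w)
  have h2 := rho_le (Real.log w)
  have h3 : 1 / (1 + s) ≤ 1 := by
    rw [div_le_one (by positivity)]; linarith
  have h4 : 0 < 1 / (1 + s) := by positivity
  nlinarith

lemma scalar_decay {t0 b : ℝ} (h0 : 0 ≤ t0) (hb : t0 ≤ b) {u : ℝ → ℝ}
    (hc : ContinuousOn u (Icc t0 b))
    (hd : ∀ s ∈ Ioo t0 b, HasDerivAt u (-(u s * coef s (u s))) s) :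
    |u b| ≤ Real.exp (4 * Real.pi) * |u t0| * Real.exp (-1 * (b - t0)) := by
  have hmono : ∀ s ∈ Icc t0 b, u t0 ^ 2 * Real.exp (6 * t0) ≤ u s ^ 2 * Real.exp (6 * s) := by
    have : MonotoneOn (fun s => u s ^ 2 * Real.exp (6 * s)) (Icc t0 b) := by
      apply monotoneOn_of_deriv_nonneg (convex_Icc _ _)
      · exact (hc.pow 2).mul (by fun_prop)
      · rw [interior_Icc]
        intro s hs
        exact (((hd s hs).pow 2).mul ((hasDerivAt_id s).const_mul 6).exp).differentiableAt.differentiableWithinAt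
      · rw [interior_Icc]
        intro s hs
        have hder : HasDerivAt (fun s => u s ^ 2 * Real.exp (6 * s))
            (((2 : ℕ) : ℝ) * u s ^ (2 - 1) * (-(u s * coef s (u s))) * Real.exp (6 * s) +
              u s ^ 2 * (Real.exp (6 * s) * (6 * 1))) s :=
          ((hd s hs).pow 2).mul ((hasDerivAt_id s).const_mul 6).exp
        rw [hder.deriv]
        have h1 := coef_le (h0.trans hs.1.le) (u s)
        have h2 := Real.exp_pos (6 * s)
        have h3 : 0 ≤ u s ^ 2 * Real.exp (6 * s) * (6 - 2 * coef s (u s)) := by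
          apply mul_nonneg (by positivity); linarith
        push_cast
        simp
        nlinarith
    intro s hs
    exact this ⟨le_refl _, hb⟩ hs hs.1
  by_cases hu : u t0 = 0
  · have : AntitoneOn (fun s => u s ^ 2) (Icc t0 b) := by
      apply antitoneOn_of_deriv_nonpos (convex_Icc _ _)
      · exact hc.pow 2
      · rw [interior_Icc]
        intro s hs
        exact ((hd s hs).pow 2).differentiableAt.differentiableWithinAt
      · rw [interior_Icc]
        intro s hs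
        have hder : HasDerivAt (fun s => u s ^ 2)
            (((2 : ℕ) : ℝ) * u s ^ (2 - 1) * (-(u s * coef s (u s)))) s := (hd s hs).pow 2
        rw [hder.deriv]
        have h1 := coef_nonneg (h0.trans hs.1.le) (u s)
        have h3 : 0 ≤ u s ^ 2 * coef s (u s) := by positivity
        simp
        nlinarith
    have h1 := this ⟨le_refl _, hb⟩ ⟨hb, le_refl _⟩ hb
    simp only [hu] at h1
    have h2 : u b = 0 := by nlinarith [sq_nonneg (u b)]
    rw [hu, h2]; simp
  · have hne : ∀ s ∈ Icc t0 b, u s ≠ 0 := by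
      intro s hs h
      have h1 := hmono s hs
      rw [h] at h1
      have h2 : 0 < u t0 ^ 2 * Real.exp (6 * t0) := by positivity
      simp at h1
      linarith
    set κ := 1 / (1 + b) with hκdef
    have hbpos : 0 ≤ b := h0.trans hb
    have hκ : 0 < κ := by positivity
    set L : ℝ → ℝ := fun s => Real.log (u s) +
      4 * Real.arctan (Real.log (u s) / qf κ (Real.log (u s))) + s with hL
    have hY : ∀ v, HasDerivAt (fun v => Real.arctan (v / qf κ v))
        (1 / (1 + (v / qf κ v) ^ 2) * ((v ^ 2 / 2 + κ ^ 4) / qf κ v ^ 5)) v :=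
      fun v => (hasDerivAt_Y hκ v).arctan
    have hYc : Continuous (fun v => Real.arctan (v / qf κ v)) :=
      continuous_iff_continuousAt.2 fun v => (hY v).continuousAt
    have hlogc : ContinuousOn (fun s => Real.log (u s)) (Icc t0 b) := hc.log hne
    have hLd : ∀ s ∈ Ioo t0 b, HasDerivAt L
        (-(coef s (u s)) + 4 * (1 / (1 + (Real.log (u s) / qf κ (Real.log (u s))) ^ 2) *
          ((Real.log (u s) ^ 2 / 2 + κ ^ 4) / qf κ (Real.log (u s)) ^ 5) *
          (-(coef s (u s)))) + 1) s := by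
      intro s hs
      have hus := hne s ⟨hs.1.le, hs.2.le⟩
      have h1 : HasDerivAt (fun s => Real.log (u s)) (-(coef s (u s))) s := by
        have := (hd s hs).log hus
        convert this using 1
        field_simp
      have h2 := (hY (Real.log (u s))).comp s h1
      exact (h1.add (h2.const_mul 4)).add (hasDerivAt_id s)
    have hanti : AntitoneOn L (Icc t0 b) := by
      apply antitoneOn_of_deriv_nonpos (convex_Icc _ _)
      · exact (hlogc.add (continuousOn_const.mul (hYc.comp_continuousOn hlogc))).add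
          continuousOn_id
      · rw [interior_Icc]
        intro s hs
        exact (hLd s hs).differentiableAt.differentiableWithinAt
      · rw [interior_Icc]
        intro s hs
        rw [(hLd s hs).deriv]
        have hδ : κ ≤ 1 / (1 + s) := by
          apply one_div_le_one_div_of_le
          · linarith [h0.trans hs.1.le]
          · linarith [hs.2]
        have := rate hκ hδ (Real.log (u s))
        unfold coef
        linarith
    have h1 := hanti ⟨le_refl _, hb⟩ ⟨hb, le_refl _⟩ hb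
    simp only [hL] at h1
    have h2 := Real.arctan_lt_pi_div_two (Real.log (u t0) / qf κ (Real.log (u t0)))
    have h3 := Real.neg_pi_div_two_lt_arctan (Real.log (u b) / qf κ (Real.log (u b)))
    have h4 : Real.log (u b) ≤ 4 * Real.pi + Real.log (u t0) + -1 * (b - t0) := by linarith
    have h5 : |u b| = Real.exp (Real.log (u b)) :=
      (Real.exp_log_eq_abs (hne b ⟨hb, le_refl _⟩)).symm
    have h6 : |u t0| = Real.exp (Real.log (u t0)) := (Real.exp_log_eq_abs hu).symm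
    rw [h5, h6, ← Real.exp_add, ← Real.exp_add]
    exact Real.exp_le_exp.2 h4

/-- Coefficients of `p(s) = s - 1`. -/
def p0 : Fin 1 → ℝ := fun _ => -1

/-- Coefficients of `q(s) = 1`. -/
def q0 : Fin (0 + 1) → ℝ := fun _ => 1

lemma output_eq (x : EuclideanSpace ℝ (Fin 1)) : output q0 x = x 0 := by
  simp [output, cvec, q0]

lemma norm_eq (x : EuclideanSpace ℝ (Fin 1)) : ‖x‖ = |x 0| := by
  rw [EuclideanSpace.norm_eq]
  simp [Real.sqrt_sq_eq_abs]

lemma rhs_eq (k φ f : ℝ → ℝ) (x : EuclideanSpace ℝ (Fin 1)) (s : ℝ) :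
    (∑ j, companion p0 0 j * x j) - k s * bvec 1 0 * φ (output q0 x) + f s * bvec 1 0 =
      x 0 - k s * φ (x 0) + f s := by
  rw [output_eq]
  simp [companion, p0, bvec]

lemma gain_phi (s w : ℝ) : w - gain s * phi w = -(w * coef s w) := by
  unfold gain phi coef; ring

lemma cont_gain {a b : ℝ} (ha : 0 ≤ a) : ContinuousOn gain (Icc a b) := by
  unfold gain
  apply continuousOn_const.add
  apply continuousOn_const.div (by fun_prop)
  intro x hx
  have := ha.trans hx.1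
  positivity

/-- A solution of the unforced equation is a classical solution of the scalar equation. -/
lemma classical {t0 : ℝ} {T : EReal} {x : ℝ → EuclideanSpace ℝ (Fin 1)} (h0 : 0 ≤ t0)
    (hx : IsSolution p0 q0 gain phi (fun _ => 0) t0 T x) {b : ℝ} (hb : t0 ≤ b)
    (hbT : (b : EReal) < T) :
    ContinuousOn (fun s => x s 0) (Icc t0 b) ∧
    ∀ s ∈ Ioo t0 b, HasDerivAt (fun s => x s 0) (-(x s 0 * coef s (x s 0))) s := by
  have hc : ContinuousOn (fun s => x s 0) (Icc t0 b) := by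
    have := (hx.ac b hb hbT 0).continuousOn
    rwa [uIcc_of_le hb] at this
  refine ⟨hc, ?_⟩
  set g : ℝ → ℝ := fun s => x s 0 - gain s * phi (x s 0) with hg
  have hgc : ContinuousOn g (Icc t0 b) :=
    hc.sub ((cont_gain h0).mul (cont_phi.comp_continuousOn hc))
  have hint : ∀ s ∈ Icc t0 b, x s 0 = x t0 0 + ∫ r in t0..s, g r := by
    intro s hs
    have hsT : (s : EReal) < T := lt_of_le_of_lt (EReal.coe_le_coe_iff.2 hs.2) hbT
    have h1 := (hx.ac s hs.1 hsT 0).integral_deriv_eq_sub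
    have h2 : ∫ r in t0..s, deriv (fun r => x r 0) r = ∫ r in t0..s, g r := by
      apply intervalIntegral.integral_congr_ae
      filter_upwards [hx.eqn] with r hr hrm
      rw [uIoc_of_le hs.1] at hrm
      have hrT : (r : EReal) < T := lt_of_le_of_lt (EReal.coe_le_coe_iff.2 hrm.2) hsT
      have h3 := hr hrm.1.le hrT 0
      rw [rhs_eq gain phi (fun _ => 0) (x r) r] at h3
      rw [h3.deriv, hg]
      simp
    rw [← h2, h1]; ring
  intro s hs
  have h1 : HasDerivAt (fun s => x t0 0 + ∫ r in t0..s, g r) (g s) s := by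
    apply HasDerivAt.const_add
    apply intervalIntegral.integral_hasDerivAt_right
    · apply ContinuousOn.intervalIntegrable
      rw [uIcc_of_le hs.1.le]
      exact hgc.mono (Icc_subset_Icc_right hs.2.le)
    · exact (hgc.mono Ioo_subset_Icc_self).stronglyMeasurableAtFilter isOpen_Ioo s hs
    · exact (hgc.mono Ioo_subset_Icc_self).continuousAt (isOpen_Ioo.mem_nhds hs)
  have h2 : (fun s => x s 0) =ᶠ[𝓝 s] fun s => x t0 0 + ∫ r in t0..s, g r := by
    filter_upwards [isOpen_Ioo.mem_nhds hs] with r hr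
    exact hint r ⟨hr.1.le, hr.2.le⟩
  have h3 := h1.congr_of_eventuallyEq h2
  rw [hg] at h3
  simp only at h3
  rw [gain_phi] at h3
  exact h3

lemma expStable : ExpStable p0 q0 gain phi := by
  refine ⟨1, Real.exp (4 * Real.pi), one_pos, Real.exp_pos _, ?_⟩
  intro t0 T x h0 hx t ht htT
  obtain ⟨hc, hd⟩ := classical h0 hx ht htT
  have := scalar_decay h0 ht hc hd
  rw [norm_eq, norm_eq]
  exact this

lemma hasDerivAt_inv {t : ℝ} (ht : 0 ≤ t) :
    HasDerivAt (fun t : ℝ => -(1 / (1 + t))) (1 / (1 + t) ^ 2) t := by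
  have h1 : HasDerivAt (fun t : ℝ => 1 + t) 1 t := (hasDerivAt_id t).const_add 1
  have h2 : HasDerivAt (fun t : ℝ => -(1 + t)⁻¹) (-(-1 / (1 + t) ^ 2)) t :=
    (h1.inv (by positivity : (1 : ℝ) + t ≠ 0)).neg
  have h3 : (fun t : ℝ => -(1 / (1 + t))) = fun t : ℝ => -(1 + t)⁻¹ := by funext s; simp
  have h4 : 1 / (1 + t) ^ 2 = -(-1 / (1 + t) ^ 2) := by ring
  rw [h3, h4]
  exact h2

lemma tendsto_inv : Tendsto (fun t : ℝ => -(1 / (1 + t))) atTop (𝓝 0) := by
  have h1 : Tendsto (fun t : ℝ => 1 + t) atTop atTop := tendsto_atTop_add_const_left _ _ tendsto_id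
  have h2 := (h1.inv_tendsto_atTop).neg
  simpa [one_div] using h2

lemma integrable_sq : IntegrableOn (fun t : ℝ => 1 / (1 + t) ^ 2) (Ioi 0) := by
  apply integrableOn_Ioi_deriv_of_nonneg' (fun t ht => hasDerivAt_inv ht) (fun t _ => by positivity)
    tendsto_inv

lemma integral_sq : ∫ t in Ioi (0 : ℝ), 1 / (1 + t) ^ 2 = 1 := by
  rw [integral_Ioi_of_hasDerivAt_of_nonneg' (fun t ht => hasDerivAt_inv ht)
    (fun t _ => by positivity) tendsto_inv]
  norm_num

lemma admissible_gain : AdmissibleK gain := by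
  refine ⟨⟨1, one_pos, fun t ht => ?_⟩, fun t => -(1 / (1 + t) ^ 2), ?_, ?_⟩
  · unfold gain
    have : 0 < 1 / (1 + t) := by positivity
    linarith
  · rw [integrableOn_Ici_iff_integrableOn_Ioi]
    exact integrable_sq.neg
  · intro t ht
    have h1 : ∫ s in (0 : ℝ)..t, 1 / (1 + s) ^ 2 = -(1 / (1 + t)) - (-(1 / (1 + 0))) := by
      apply intervalIntegral.integral_eq_sub_of_hasDerivAt
      · intro s hs
        rw [uIcc_of_le ht] at hs
        exact hasDerivAt_inv hs.1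
      · rw [intervalIntegrable_iff_integrableOn_Ioc_of_le ht]
        exact integrable_sq.mono_set Ioc_subset_Ioi_self
    rw [intervalIntegral.integral_neg, h1]
    unfold gain
    ring

lemma phi_one : phi 1 = 1 := by simp [phi, rho]

lemma not_L2Stable : ¬ L2Stable p0 q0 gain phi := by
  intro h
  obtain ⟨η₃, h3⟩ := h 2 2 (by norm_num) (by norm_num)
  have hs : IsSolution p0 q0 gain phi (fun t => 1 / (1 + t)) 0 ⊤
      (fun _ => (!₂[1] : EuclideanSpace ℝ (Fin 1))) := by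
    constructor
    · exact EReal.coe_lt_top 0
    · intro t _ _ i
      exact (contDiff_const.contDiffOn).absolutelyContinuousOnInterval
    · intro t _ _
      exact intervalIntegrable_const
    · refine ae_of_all _ fun s _ _ i => ?_
      have hi : i = 0 := Subsingleton.elim _ _
      subst hi
      rw [rhs_eq gain phi (fun t => 1 / (1 + t)) (!₂[1] : EuclideanSpace ℝ (Fin 1)) s]
      have e1 : (!₂[1] : EuclideanSpace ℝ (Fin 1)) 0 = 1 := by simp
      rw [e1, phi_one]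
      have e2 : (1 : ℝ) - gain s * 1 + 1 / (1 + s) = 0 := by unfold gain; ring
      rw [e2]
      exact hasDerivAt_const _ _
  have hf : (∫⁻ t in Ici (0 : ℝ), ENNReal.ofReal ((fun t : ℝ => 1 / (1 + t)) t ^ 2)) <
      ENNReal.ofReal 2 := by
    have e1 : (∫⁻ t in Ici (0 : ℝ), ENNReal.ofReal ((fun t : ℝ => 1 / (1 + t)) t ^ 2)) =
        ENNReal.ofReal 1 := by
      have e0 := ofReal_integral_eq_lintegral_ofReal integrable_sq
          (ae_of_all _ fun t => by positivity)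
      rw [integral_sq] at e0
      rw [setLIntegral_congr (Ioi_ae_eq_Ici (a := (0 : ℝ))).symm, e0]
      apply lintegral_congr
      intro t
      simp only [div_pow, one_pow]
    rw [e1]
    exact (ENNReal.ofReal_lt_ofReal_iff (by norm_num)).2 (by norm_num)
  have h4 := h3 0 ⊤ _ _ le_rfl (by fun_prop) hs (by rw [norm_eq]; simp) hf
  have e3 : {t : ℝ | 0 ≤ t ∧ (t : EReal) < ⊤} = Ici 0 := by
    ext t; simp [EReal.coe_lt_top]
  rw [e3] at h4
  simp [norm_eq] at h4

/-- **Q1 is false.** For `p(s) = s - 1`, `q(s) = 1`, `k(t) = 1 + 1/(1+t)` and the continuous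
nonlinearity `φ(σ) = σ (1 + min(1, sqrt |log |σ||))`, the null solution of (1) is exponentially
stable but (2) is not `L₂`-stable. -/
theorem result : ∃ (n m : ℕ) (p : Fin n → ℝ) (q : Fin (m + 1) → ℝ) (k φ : ℝ → ℝ),
    m < n ∧ AdmissibleK k ∧ AdmissiblePhi φ ∧ Continuous φ ∧
    ExpStable p q k φ ∧ ¬ L2Stable p q k φ :=
  ⟨1, 0, p0, q0, gain, phi, by norm_num, admissible_gain, admissible_phi, cont_phi, expStable,
    not_L2Stable⟩

end Pool.Agent.Results.MP_d56d33_an.ExpNotL2
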